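import Pool.Agent.N939.ME.Stm

/-!
PROJECT ME (helper939), piece ME14 (helper933): weighted second moment of block sums.
-/

set_option autoImplicit false
open MeasureTheory ProbabilityTheory Filter Topology Finset
open scoped Classical

namespace Pool.Agent.N933.ME
open Pool.Agent.N939.ME

theorem mn_le_one (g : ℕ → ℝ) : ∀ h : ℕ, mn g h ≤ 1
  | 0 => le_refl _
  | h + 1 => le_trans (min_le_left _ _) (mn_le_one g h)

theorem mn_nonneg (g : ℕ → ℝ) (hg : ∀ t, 0 ≤ g t) : ∀ h : ℕ, 0 ≤ mn g h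
  | 0 => by simp [mn]
  | h + 1 => le_min (mn_nonneg g hg h) (hg h)

theorem mn_le (g : ℕ → ℝ) : ∀ h t : ℕ, t < h → mn g h ≤ g t
  | 0, t, ht => absurd ht (Nat.not_lt_zero _)
  | h + 1, t, ht => by
    rcases Nat.lt_succ_iff_lt_or_eq.mp ht with h1 | h1
    · exact le_trans (min_le_left _ _) (mn_le g h t h1)
    · subst h1; exact min_le_right _ _

theorem count_le (m : ℕ) (hm : 0 < m) (c : ℝ) (hc : c ≤ 1) :
    (m : ℝ) * c ≤ ((range m).filter (fun k : ℕ => (k : ℝ) / m < c)).card := by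
  have hm' : (0 : ℝ) < m := by exact_mod_cast hm
  have hsub : range ⌈(m : ℝ) * c⌉₊ ⊆ (range m).filter (fun k : ℕ => (k : ℝ) / m < c) := by
    intro k hk
    rw [mem_range, Nat.lt_ceil] at hk
    rw [mem_filter, mem_range]
    refine ⟨?_, ?_⟩
    · have : (k : ℝ) < m := lt_of_lt_of_le hk (by nlinarith)
      exact_mod_cast this
    · rw [div_lt_iff₀ hm']; linarith
  have h1 := Finset.card_le_card hsub
  rw [card_range] at h1
  calc (m : ℝ) * c ≤ ⌈(m : ℝ) * c⌉₊ := Nat.le_ceil _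
    _ ≤ _ := by exact_mod_cast h1

theorem ls (hBK2 : S_BK2) (hENP : S_ENP) (hEN : S_EN) (hLV : S_LV) : S_LS := by
  intro S _ Q _ ν _ hinv herg f Φ Ψ hres Ω _ μ _ X hX η hη
  obtain ⟨A, m, h0, hA, hm, hmain⟩ := hLV S Q ν hinv herg f Φ Ψ hres η hη
  refine ⟨h0, fun h hh y hy hy01 => ?_⟩
  have key := hmain h hh y hy hy01
  obtain ⟨-, -, hyk, -⟩ := hBK2 S Q ν hinv
  have hB : ∀ k t, MeasurableSet (Blev Q ν y A m k t) := by
    intro k t
    unfold Blev
    exact (measurableSet_lt measurable_const (hyk y t hy hy01).1).union hA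
  have hen := fun k => hEN S Q ν hinv Ω μ X hX f hres.mf hres.lf (Blev Q ν y A m k) (hB k) h
  have hm' : (0 : ℝ) < m := by exact_mod_cast hm
  have hpt : ∀ ω, (m : ℝ) * (mn (fun t => yk Q ν y t (X t ω)) h * SS f X h ω ^ 2)
      ≤ ∑ k ∈ range m, en (fun t => f (X t ω)) (fun t => X t ω ∈ Blev Q ν y A m k t) h := by
    intro ω
    set c := mn (fun t => yk Q ν y t (X t ω)) h with hc
    have hc1 : c ≤ 1 := mn_le_one _ h
    have h1 := count_le m hm c hc1
    have h2 : ∀ k ∈ (range m).filter (fun k : ℕ => (k : ℝ) / m < c),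
        en (fun t => f (X t ω)) (fun t => X t ω ∈ Blev Q ν y A m k t) h = SS f X h ω ^ 2 := by
      intro k hk
      rw [mem_filter] at hk
      refine (hENP _ _ h).2.2 ?_
      intro t ht
      left
      exact lt_of_lt_of_le hk.2 (mn_le (fun t => yk Q ν y t (X t ω)) h t ht)
    calc (m : ℝ) * (c * SS f X h ω ^ 2) = ((m : ℝ) * c) * SS f X h ω ^ 2 := by ring
      _ ≤ ((range m).filter (fun k : ℕ => (k : ℝ) / m < c)).card * SS f X h ω ^ 2 :=
          mul_le_mul_of_nonneg_right h1 (sq_nonneg _)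
      _ = ∑ k ∈ (range m).filter (fun k : ℕ => (k : ℝ) / m < c),
            en (fun t => f (X t ω)) (fun t => X t ω ∈ Blev Q ν y A m k t) h := by
          rw [sum_congr rfl h2, sum_const, nsmul_eq_mul]
      _ ≤ _ := by
          refine sum_le_sum_of_subset_of_nonneg (filter_subset _ _) ?_
          intro k _ _
          exact (hENP _ _ h).2.1
  have hint : Integrable (fun ω => ∑ k ∈ range m,
      en (fun t => f (X t ω)) (fun t => X t ω ∈ Blev Q ν y A m k t) h) μ :=
    integrable_finset_sum _ (fun k _ => (hen k).1)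
  have h3 : ∫ ω, (m : ℝ) * (mn (fun t => yk Q ν y t (X t ω)) h * SS f X h ω ^ 2) ∂μ
      ≤ ∫ ω, ∑ k ∈ range m,
        en (fun t => f (X t ω)) (fun t => X t ω ∈ Blev Q ν y A m k t) h ∂μ := by
    refine integral_mono_of_nonneg (ae_of_all _ fun ω => ?_) hint (ae_of_all _ hpt)
    exact mul_nonneg hm'.le (mul_nonneg
      (mn_nonneg _ (fun t => ((hyk y t hy hy01).2 _).1) h) (sq_nonneg _))
  rw [integral_finset_sum _ (fun k _ => (hen k).1), integral_const_mul,
    sum_congr rfl (fun k _ => (hen k).2)] at h3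
  have h4 := h3.trans key
  have h5 : (m : ℝ) * ∫ ω, mn (fun t => yk Q ν y t (X t ω)) h * SS f X h ω ^ 2 ∂μ
      ≤ m * (h * (sg Q ν f Φ Ψ * ∫ x, y x ∂ν + η)) := by
    calc _ ≤ _ := h4
      _ = _ := by ring
  exact le_of_mul_le_mul_left h5 hm'

#print axioms ls

end Pool.Agent.N933.ME
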