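import Pool.Agent.N939.ME.Stm

/-!
PROJECT ME (helper939), piece ME25 (helper933): resolvent data from the hypotheses of S19611.
-/

set_option autoImplicit false
open MeasureTheory ProbabilityTheory Filter Topology Finset
open scoped Classical

namespace Pool.Agent.N933.ME
open Pool.Agent.N939.ME

variable {S : Type} [MeasurableSpace S]

theorem ae_r (ν : Measure S) [IsProbabilityMeasure ν] :
    ∀ᵐ p ∂(nuh ν), 0 < p.1 ∧ p.1 < 1 := by
  have h1 : ∀ᵐ r ∂lam, 0 < r ∧ r < 1 := by
    unfold lam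
    exact ae_restrict_mem measurableSet_Ioo
  unfold nuh
  exact (Measure.quasiMeasurePreserving_fst (μ := lam) (ν := ν)).ae h1

theorem ae_snd (ν : Measure S) [IsProbabilityMeasure ν] {p : S → Prop} (h : ∀ᵐ x ∂ν, p x) :
    ∀ᵐ q ∂(nuh ν), p q.2 := by
  unfold nuh
  exact (Measure.quasiMeasurePreserving_snd (μ := lam) (ν := ν)).ae h

theorem memLp_snd (ν : Measure S) [IsProbabilityMeasure ν] {a : S → ℝ} (ha : MemLp a 2 ν) :
    MemLp (fun p : ℝ × S => a p.2) 2 (nuh ν) := by
  unfold nuh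
  exact ha.comp_measurePreserving (measurePreserving_snd (μ := lam) (ν := ν))

theorem memLp_pow (ν : Measure S) [IsProbabilityMeasure ν] {a : S → ℝ} (hm : Measurable a)
    (ha : MemLp a 2 ν) (j : ℕ) :
    MemLp (fun p : ℝ × S => p.1 ^ j * a p.2) 2 (nuh ν) := by
  refine (memLp_snd ν ha).mono ?_ ?_
  · exact ((measurable_fst.pow_const j).mul (hm.comp measurable_snd)).aestronglyMeasurable
  · filter_upwards [ae_r ν] with p hp
    rw [norm_mul, norm_pow, Real.norm_eq_abs, abs_of_pos hp.1]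
    exact mul_le_of_le_one_left (norm_nonneg _) (pow_le_one₀ hp.1.le hp.2.le)

/-- truncation: an `L²` function tested against bounded functions only -/
theorem norm_le_of_test (ν : Measure S) [IsProbabilityMeasure ν] (β : S → ℝ) (hβ : Measurable β)
    (hβ2 : MemLp β 2 ν) (c : ℝ)
    (hc : ∀ g : S → ℝ, Measurable g → (∃ C : ℝ, ∀ x, |g x| ≤ C) → ∫ x, g x ^ 2 ∂ν ≤ 1 →
      (∫ x, β x * g x ∂ν) ^ 2 ≤ c) : ∫ x, β x ^ 2 ∂ν ≤ c := by
  have hc0 : 0 ≤ c := by
    have := hc (fun _ => 0) measurable_const ⟨0, fun x => by simp⟩ (by simp)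
    simpa using this
  have hms : ∀ n : ℕ, MeasurableSet {x | |β x| ≤ n} := fun n =>
    measurableSet_le hβ.abs measurable_const
  have hi : Integrable (fun x => β x ^ 2) ν := hβ2.integrable_sq
  have h1 : ∀ n : ℕ, ∫ x, ({x | |β x| ≤ n}).indicator (fun x => β x ^ 2) x ∂ν ≤ c := by
    intro n
    set s := ∫ x, ({x | |β x| ≤ n}).indicator (fun x => β x ^ 2) x ∂ν with hs
    have hs0 : 0 ≤ s := integral_nonneg fun x => Set.indicator_nonneg (fun _ _ => sq_nonneg _) _
    rcases hs0.eq_or_lt with h0 | h0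
    · rw [← h0]; exact hc0
    · have hsq : 0 < Real.sqrt s := Real.sqrt_pos.mpr h0
      have h2 := hc (fun x => (Real.sqrt s)⁻¹ * ({x | |β x| ≤ n}).indicator β x)
        (measurable_const.mul (hβ.indicator (hms n)))
        ⟨(Real.sqrt s)⁻¹ * n, fun x => by
          rw [abs_mul, abs_of_pos (inv_pos.mpr hsq)]
          refine mul_le_mul_of_nonneg_left ?_ (inv_pos.mpr hsq).le
          by_cases hx : |β x| ≤ n
          · rw [Set.indicator_of_mem (show x ∈ {x | |β x| ≤ n} from hx)]; exact hx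
          · rw [Set.indicator_of_notMem (show x ∉ {x | |β x| ≤ n} from hx)]; simp⟩
        (by
          have : ∀ x, ((Real.sqrt s)⁻¹ * ({x | |β x| ≤ n}).indicator β x) ^ 2
              = s⁻¹ * ({x | |β x| ≤ n}).indicator (fun x => β x ^ 2) x := by
            intro x
            rw [mul_pow, inv_pow, Real.sq_sqrt h0.le]
            congr 1
            by_cases hx : |β x| ≤ n
            · rw [Set.indicator_of_mem (show x ∈ {x | |β x| ≤ n} from hx),
                Set.indicator_of_mem (show x ∈ {x | |β x| ≤ n} from hx)]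
            · rw [Set.indicator_of_notMem (show x ∉ {x | |β x| ≤ n} from hx),
                Set.indicator_of_notMem (show x ∉ {x | |β x| ≤ n} from hx)]; simp
          simp_rw [this]
          rw [integral_const_mul, ← hs, inv_mul_cancel₀ h0.ne'])
      have h3 : ∀ x, β x * ((Real.sqrt s)⁻¹ * ({x | |β x| ≤ n}).indicator β x)
          = (Real.sqrt s)⁻¹ * ({x | |β x| ≤ n}).indicator (fun x => β x ^ 2) x := by
        intro x
        by_cases hx : |β x| ≤ n
        · rw [Set.indicator_of_mem (show x ∈ {x | |β x| ≤ n} from hx),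
            Set.indicator_of_mem (show x ∈ {x | |β x| ≤ n} from hx)]; ring
        · rw [Set.indicator_of_notMem (show x ∉ {x | |β x| ≤ n} from hx),
            Set.indicator_of_notMem (show x ∉ {x | |β x| ≤ n} from hx)]; simp
      simp_rw [h3] at h2
      rw [integral_const_mul, ← hs, mul_pow, inv_pow, Real.sq_sqrt h0.le] at h2
      have h4 : s⁻¹ * s ^ 2 = s := by field_simp
      rwa [h4] at h2
  have h2 : Tendsto (fun n : ℕ => ∫ x, ({x | |β x| ≤ n}).indicator (fun x => β x ^ 2) x ∂ν) atTop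
      (𝓝 (∫ x, β x ^ 2 ∂ν)) := by
    refine tendsto_integral_of_dominated_convergence (fun x => β x ^ 2) ?_ hi ?_ ?_
    · intro n
      exact ((hβ.pow_const 2).indicator (hms n)).aestronglyMeasurable
    · intro n
      refine ae_of_all _ fun x => ?_
      by_cases hx : |β x| ≤ n
      · rw [Set.indicator_of_mem (show x ∈ {x | |β x| ≤ n} from hx), Real.norm_eq_abs,
          abs_of_nonneg (sq_nonneg _)]
      · rw [Set.indicator_of_notMem (show x ∉ {x | |β x| ≤ n} from hx)]; simpa using sq_nonneg _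
    · refine ae_of_all _ fun x => ?_
      refine tendsto_const_nhds.congr' ?_
      obtain ⟨n0, hn0⟩ := exists_nat_ge |β x|
      filter_upwards [eventually_ge_atTop n0] with n hn
      rw [Set.indicator_of_mem]
      exact le_trans hn0 (by exact_mod_cast hn)
  exact le_of_tendsto' h2 h1

theorem res (hHAT : S_HAT) (hTT : S_TT) (hBK1 : S_BK1) (hRS : S_RS) : S_RES := by
  intro S _ Q _ ν _ hinv f hf hf2 hs hc
  obtain ⟨hhat1, hhat2⟩ := hHAT S Q ν hinv
  obtain ⟨tm, ti, t2, -, -, tadd⟩ := hTT S Q ν hinv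
  obtain ⟨Tm, Ti, T2, -, -, Tadd⟩ := hTT (ℝ × S) (Qh Q) (nuh ν) hhat2
  obtain ⟨b1, bm, -, -, -, -, -, -, -⟩ := hBK1 S Q ν hinv
  obtain ⟨B1, Bm, Bu, Bn, -, Badd, Bsmul, -, -⟩ := hBK1 (ℝ × S) (Qh Q) (nuh ν) hhat2
  -- forward part
  have am : ∀ j, Measurable ((TT Q)^[j] f) := by
    intro j
    induction j with
    | zero => exact hf
    | succ j ih => rw [Function.iterate_succ_apply']; exact tm _ ih
  have al : ∀ j, MemLp ((TT Q)^[j] f) 2 ν := by
    intro j
    induction j with
    | zero => exact hf2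
    | succ j ih => rw [Function.iterate_succ_apply']; exact (t2 _ ih).1
  have hΦ : ∃ Φ : ℝ × S → ℝ, Measurable Φ ∧ MemLp Φ 2 (nuh ν) ∧
      ∀ᵐ p ∂(nuh ν), Φ p = (TT Q)^[0] f p.2 + p.1 * TT (Qh Q) Φ p := by
    refine hRS S ν (fun j => (TT Q)^[j] f) (TT (Qh Q)) am al ?_ ?_ ?_ ?_
    · exact (summable_nat_add_iff 1).mp hs
    · intro h hh hm
      exact ⟨Tm h hm, (T2 h hh).1, (T2 h hh).2.1⟩
    · intro h h' hh hm hh' hm'
      have h1 := Tadd (fun p => h p - h' p) h' ((hh.sub hh').integrable one_le_two)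
        (hh'.integrable one_le_two)
      simp only [sub_add_cancel] at h1
      filter_upwards [h1] with p hp
      have : TT (Qh Q) h p = TT (Qh Q) (fun p => h p - h' p) p + TT (Qh Q) h' p := hp
      linarith
    · intro n
      have h1 : ∀ᵐ x ∂ν, ∀ j ∈ range n, Integrable ((TT Q)^[j] f) (Q x) := by
        rw [eventually_all_finset]
        intro j _
        exact (ti _ ((al j).integrable one_le_two)).2.2.1
      filter_upwards [ae_snd ν h1] with p hp
      obtain ⟨r, x⟩ := p
      rw [hhat1]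
      simp only
      rw [integral_finset_sum _ (fun j hj => (hp j hj).const_mul _)]
      refine sum_congr rfl fun j _ => ?_
      rw [integral_const_mul, Function.iterate_succ_apply']
      rfl
  -- backward part
  obtain ⟨c, hcs, hc⟩ := hc
  let b : ℕ → S → ℝ := fun k => (bk Q ν)^[k] f
  have bs : ∀ k, b (k + 1) = bk Q ν (b k) := fun k => Function.iterate_succ_apply' _ _ _
  have bmm : ∀ j, Measurable (b j) := by
    intro j
    cases j with
    | zero => exact hf
    | succ j => rw [bs]; exact bm _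
  have bl : ∀ j, MemLp (b j) 2 ν := by
    intro j
    induction j with
    | zero => exact hf2
    | succ j ih => rw [bs]; exact (b1 _ ih).2.1
  have bis : ∀ j, IsBk Q ν (b j) (b (j + 1)) := by
    intro j; rw [bs]; exact b1 _ (bl j)
  have biter : ∀ (k : ℕ) (g : S → ℝ), Measurable g → MemLp g 2 ν →
      ∫ x, b k x * g x ∂ν = ∫ x, f x * (TT Q)^[k] g x ∂ν := by
    intro k
    induction k with
    | zero => intro g _ _; rfl
    | succ k ih =>
      intro g hg hg2
      rw [(bis k).2.2 g hg hg2, ih (TT Q g) (tm g hg) (t2 g hg2).1, Function.iterate_succ_apply]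
  have bnorm : ∀ k, ∫ x, b (k + 1) x ^ 2 ∂ν ≤ c k := by
    intro k
    refine norm_le_of_test ν _ (bmm _) (bl _) _ ?_
    rintro g hg ⟨C, hC⟩ hg1
    have hg2 : MemLp g 2 ν := by
      refine (memLp_const C).mono hg.aestronglyMeasurable (ae_of_all _ fun x => ?_)
      rw [Real.norm_eq_abs, Real.norm_eq_abs]
      exact (hC x).trans (le_abs_self C)
    rw [biter (k + 1) g hg hg2]
    exact hc k g hg ⟨C, hC⟩ hg1
  have hmono : ∀ j, bk (Qh Q) (nuh ν) (fun p => p.1 ^ j * b j p.2) =ᵐ[nuh ν]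
      fun p => p.1 ^ j * b (j + 1) p.2 := by
    intro j
    have hL : MemLp (fun p : ℝ × S => p.1 ^ j * b j p.2) 2 (nuh ν) := memLp_pow ν (bmm j) (bl j) j
    have hL' : MemLp (fun p : ℝ × S => p.1 ^ j * b (j + 1) p.2) 2 (nuh ν) :=
      memLp_pow ν (bmm (j + 1)) (bl (j + 1)) j
    refine Bu _ _ _ (B1 _ hL) ⟨?_, hL', ?_⟩
    · exact (measurable_fst.pow_const j).mul ((bmm (j + 1)).comp measurable_snd)
    · intro g hg hg2
      have hi1 : Integrable (fun p : ℝ × S => p.1 ^ j * b (j + 1) p.2 * g p) (nuh ν) :=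
        hL'.integrable_mul hg2
      have hi2 : Integrable (fun p : ℝ × S => p.1 ^ j * b j p.2 * TT (Qh Q) g p) (nuh ν) :=
        hL.integrable_mul (T2 g hg2).1
      have hi3 : Integrable (fun p : ℝ × S => g p ^ 2) (nuh ν) := hg2.integrable_sq
      unfold nuh at hi1 hi2 hi3 ⊢
      rw [integral_prod _ hi1, integral_prod _ hi2]
      refine integral_congr_ae ?_
      filter_upwards [hi3.prod_right_ae] with r hr
      have hgr : Measurable fun x => g (r, x) := hg.comp measurable_prodMk_left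
      have hgr2 : MemLp (fun x => g (r, x)) 2 ν :=
        (memLp_two_iff_integrable_sq hgr.aestronglyMeasurable).mpr hr
      have h1 := (bis j).2.2 _ hgr hgr2
      calc ∫ x, r ^ j * b (j + 1) x * g (r, x) ∂ν
          = r ^ j * ∫ x, b (j + 1) x * g (r, x) ∂ν := by
            rw [← integral_const_mul]; simp only [mul_assoc]
        _ = r ^ j * ∫ x, b j x * TT Q (fun x => g (r, x)) x ∂ν := by rw [h1]
        _ = ∫ x, r ^ j * b j x * TT (Qh Q) g (r, x) ∂ν := by
            rw [← integral_const_mul]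
            refine integral_congr_ae (ae_of_all _ fun x => ?_)
            simp only
            rw [hhat1]
            simp only [TT, mul_assoc]
  have hΨ : ∃ Ψ : ℝ × S → ℝ, Measurable Ψ ∧ MemLp Ψ 2 (nuh ν) ∧
      ∀ᵐ p ∂(nuh ν), Ψ p = b 0 p.2 + p.1 * bk (Qh Q) (nuh ν) Ψ p := by
    refine hRS S ν b (bk (Qh Q) (nuh ν)) bmm bl ?_ ?_ ?_ ?_
    · refine (summable_nat_add_iff 1).mp ?_
      exact Summable.of_nonneg_of_le (fun k => integral_nonneg fun x => sq_nonneg _) bnorm hcs
    · intro h hh hm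
      exact ⟨Bm h, (B1 h hh).2.1, Bn h hh⟩
    · intro h h' hh hm hh' hm'
      have hneg : MemLp (fun p => (-1 : ℝ) * h' p) 2 (nuh ν) := hh'.const_mul (-1)
      have h1 := Badd h (fun p => (-1 : ℝ) * h' p) hh hneg
      have h2 := Bsmul h' (-1) hh'
      have h3 : (fun p => h p - h' p) = fun p => h p + (-1 : ℝ) * h' p := by
        funext p; ring
      rw [h3]
      filter_upwards [h1, h2] with p hp1 hp2
      rw [hp1, hp2]; ring
    · intro n
      induction n with
      | zero =>
        have h1 := Bsmul (fun _ => (0 : ℝ)) 0 (by simp)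
        simp only [zero_mul] at h1
        simpa using h1
      | succ n ih =>
        have hsum : MemLp (fun p : ℝ × S => ∑ j ∈ range n, p.1 ^ j * b j p.2) 2 (nuh ν) :=
          memLp_finset_sum _ (fun j _ => memLp_pow ν (bmm j) (bl j) j)
        have h1 := Badd _ _ hsum (memLp_pow ν (bmm n) (bl n) n)
        simp_rw [sum_range_succ]
        filter_upwards [h1, ih, hmono n] with p hp1 hp2 hp3
        rw [hp1, hp2, hp3]
  obtain ⟨Φ, Φm, Φl, Φe⟩ := hΦ
  obtain ⟨Ψ, Ψm, Ψl, Ψe⟩ := hΨ
  exact ⟨Φ, Ψ, ⟨hf, hf2, Φm, Ψm, Φl, Ψl, Φe, Ψe⟩⟩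

#print axioms res

end Pool.Agent.N933.ME
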